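import Pool.Agent.Helper38.WY.Goals1
import Pool.Agent.Helper32.PW.LLOC

/-!
# Project WY (MP_fc6b1e_nt), packet WY-Y_LOC: an element of the base field which is not a norm
-/

set_option autoImplicit false

namespace Pool.Agent.Helper14.WY

open Module Pool.Agent.Helper42.PW Pool.Agent.Helper38.WY
open Pool.Agent.Helper79.RD (res res_coe res_pow fix_pow)
open Pool.Agent.Helper32.PW (idx_transfer prod_shift)

section

variable {K Ω : Type} [Field K] [Field Ω] [Algebra K Ω]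

theorem mem_fix (a : Ω ≃ₐ[K] Ω) (y : Ω) :
    y ∈ IntermediateField.fixedField (Subgroup.zpowers a) ↔ a y = y := by
  rw [IntermediateField.mem_fixedField_iff]
  constructor
  · intro e1
    exact e1 a (Subgroup.mem_zpowers a)
  · intro e1 f hf
    have e2 : a ∈ MulAction.stabilizer (Ω ≃ₐ[K] Ω) y := e1
    have e3 : Subgroup.zpowers a ≤ MulAction.stabilizer (Ω ≃ₐ[K] Ω) y := by
      rwa [Subgroup.zpowers_le]
    exact e3 hf

theorem fix_stab (a f : Ω ≃ₐ[K] Ω) (hc : Commute f a) :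
    ∀ y ∈ IntermediateField.fixedField (Subgroup.zpowers a),
      f y ∈ IntermediateField.fixedField (Subgroup.zpowers a) := by
  intro y hy
  rw [mem_fix] at hy ⊢
  have e1 := AlgEquiv.congr_fun hc y
  rw [AlgEquiv.mul_apply, AlgEquiv.mul_apply, hy] at e1
  exact e1.symm

theorem fix_stab' (a f : Ω ≃ₐ[K] Ω) (hc : Commute f a) :
    ∀ y ∈ IntermediateField.fixedField (Subgroup.zpowers a),
      f.symm y ∈ IntermediateField.fixedField (Subgroup.zpowers a) := by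
  have hc' : Commute f⁻¹ a := hc.inv_left
  exact fix_stab a f⁻¹ hc'

end

theorem y_loc (h0 : Y_CYC) (h1 : L_KEX) (h2 : L_IDX) (h3 : N_EVL) (h4 : N_ALG) :
    Pool.Agent.Helper38.WY.Y_LOC := by
  classical
  intro p hpf k _ _ _ 𝓕 _ ε α β hε hα hβ hnp g σ n d t c e hgε hgα hd hdp hgd hgσ hσε hσα hσo hσe
  have hp := hpf.out
  have hβ𝓕 : β ∉ 𝓕 := fun h ↦ hnp ⟨⟨β, h⟩, Subtype.ext hβ⟩
  obtain ⟨ℋ, h, b, γ, g', hfin, hb, hspan, γF, γb, g'F, g'b, hcomm⟩ :=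
    h1 p k 𝓕 ε α β hε hα hβ hβ𝓕 g n c hgε hgα
  obtain ⟨ℋ₂, h', b₂, γ₂, s', hfin₂, hb₂, hspan₂, γF₂, γb₂, s'F, s'b, hcomm₂⟩ :=
    h1 p k 𝓕 ε α β hε hα hβ hβ𝓕 σ 1 e (by rw [pow_one]; exact hσε) (by rw [pow_one]; exact hσα)
  have hmem₁ : ∀ y : k, y ∈ ℋ → ∃ z : ℕ → 𝓕, y = ∑ j ∈ Finset.range p, (z j : k) * β ^ j := by
    intro y hy
    obtain ⟨z, hz⟩ := hspan ⟨y, hy⟩
    refine ⟨z, ?_⟩
    have e1 := congrArg (Subtype.val : ℋ → k) hz
    rw [← hb]
    refine e1.trans ?_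
    exact map_sum ℋ.val _ _
  have hmem₂ : ∀ y : k, y ∈ ℋ₂ → ∃ z : ℕ → 𝓕, y = ∑ j ∈ Finset.range p, (z j : k) * β ^ j := by
    intro y hy
    obtain ⟨z, hz⟩ := hspan₂ ⟨y, hy⟩
    refine ⟨z, ?_⟩
    have e1 := congrArg (Subtype.val : ℋ₂ → k) hz
    rw [← hb₂]
    refine e1.trans ?_
    exact map_sum ℋ₂.val _ _
  have hℋ : ℋ₂ = ℋ := by
    ext y
    constructor
    · intro hy
      obtain ⟨z, hz⟩ := hmem₂ y hy
      rw [hz]
      refine sum_mem fun j _ ↦ mul_mem (h (z j).2) (pow_mem ?_ j)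
      rw [← hb]
      exact b.2
    · intro hy
      obtain ⟨z, hz⟩ := hmem₁ y hy
      rw [hz]
      refine sum_mem fun j _ ↦ mul_mem (h' (z j).2) (pow_mem ?_ j)
      rw [← hb₂]
      exact b₂.2
  subst hℋ
  obtain rfl : b₂ = b := Subtype.ext (hb₂.trans hb.symm)
  set ι : 𝓕 →ₐ[ℚ_[p]] ℋ₂ := IntermediateField.inclusion h with hι
  have hιinj : Function.Injective ι := ι.injective
  have s'F' : ∀ y : 𝓕, s' (ι y) = ι (σ y) := s'F
  have s'b' : s' b₂ = b₂ * ι e := by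
    have e1 := s'b
    rw [pow_one] at e1
    exact e1
  have hbp : b₂ ^ p = ι α := by
    apply Subtype.ext
    show (b₂ : k) ^ p = ((ι α : ℋ₂) : k)
    rw [hb₂, hβ]
    rfl
  have hb0 : b₂ ≠ 0 := by
    rintro rfl
    rw [zero_pow hp.ne_zero] at hbp
    exact hα (hιinj (by rw [map_zero]; exact hbp.symm))
  have hει : IsPrimitiveRoot (ι ε) p := hε.map_of_injective hιinj
  have hεp : (ι ε) ^ p = 1 := hει.pow_eq_one
  -- automorphisms
  have hext : ∀ f f' : ℋ₂ ≃ₐ[ℚ_[p]] ℋ₂, (∀ y : 𝓕, f (ι y) = f' (ι y)) → f b₂ = f' b₂ →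
      f = f' := by
    intro f f' e1 e2
    ext y
    obtain ⟨z, hz⟩ := hspan y
    congr 1
    rw [hz, map_sum, map_sum]
    refine Finset.sum_congr rfl fun j _ ↦ ?_
    rw [map_mul, map_mul, map_pow, map_pow, e1, e2]
  have γpF : ∀ (i : ℕ) (y : 𝓕), (γ ^ i) (ι y) = ι y := by
    intro i
    induction i with
    | zero => intro y; rfl
    | succ i ih => intro y; rw [pow_succ, AlgEquiv.mul_apply, γF, ih]
  have γpb : ∀ i : ℕ, (γ ^ i) b₂ = (ι ε) ^ i * b₂ := by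
    intro i
    induction i with
    | zero => rw [pow_zero, pow_zero, one_mul]; rfl
    | succ i ih =>
      rw [pow_succ, AlgEquiv.mul_apply, γb, map_mul, γpF, ih, pow_succ]
      ring
  have hγp : γ ^ p = 1 := hext _ _ (fun y ↦ γpF p y) (by
    rw [γpb, hεp, one_mul]; rfl)
  have hγ1 : γ ≠ 1 := by
    intro e1
    have e2 := γb
    rw [e1] at e2
    have e3 : (ι ε - 1) * b₂ = 0 := by
      rw [sub_mul, one_mul, ← e2]
      exact sub_self b₂
    rcases mul_eq_zero.1 e3 with e4 | e4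
    · exact hει.ne_one hp.one_lt (sub_eq_zero.1 e4)
    · exact hb0 e4
  have hγo : orderOf γ = p := orderOf_eq_prime hγp hγ1
  have hγγ₂ : γ₂ = γ := hext _ _ (fun y ↦ (γF₂ y).trans (γF y).symm) (γb₂.trans γb.symm)
  -- an automorphism which is trivial on `𝓕` is a power of `γ`
  have htriv : ∀ f : ℋ₂ ≃ₐ[ℚ_[p]] ℋ₂, (∀ y : 𝓕, f (ι y) = ι y) → ∃ i : ℕ, f = γ ^ i := by
    intro f hf
    have e1 : (f b₂ / b₂) ^ p = 1 := by
      rw [div_pow, ← map_pow, hbp, hf]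
      exact div_self (by rw [← hbp]; exact pow_ne_zero _ hb0)
    have : NeZero p := ⟨hp.ne_zero⟩
    obtain ⟨i, -, hi⟩ := hει.eq_pow_of_pow_eq_one e1
    refine ⟨i, hext _ _ (fun y ↦ ?_) ?_⟩
    · rw [hf, γpF]
    · rw [γpb, hi, div_mul_cancel₀ _ hb0]
  have g'pF : ∀ (i : ℕ) (y : 𝓕), (g' ^ i) (ι y) = ι ((g ^ i) y) := by
    intro i
    induction i with
    | zero => intro y; rfl
    | succ i ih =>
      intro y
      rw [pow_succ, AlgEquiv.mul_apply, g'F, ih, pow_succ, AlgEquiv.mul_apply]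
  have s'pF : ∀ (i : ℕ) (y : 𝓕), (s' ^ i) (ι y) = ι ((σ ^ i) y) := by
    intro i
    induction i with
    | zero => intro y; rfl
    | succ i ih =>
      intro y
      rw [pow_succ, AlgEquiv.mul_apply, s'F', ih, pow_succ, AlgEquiv.mul_apply]
  have s'pb : ∀ i : ℕ, (s' ^ i) b₂ = b₂ * ι (∏ l ∈ Finset.range i, (σ ^ l) e) := by
    intro i
    induction i with
    | zero =>
      rw [pow_zero, Finset.prod_range_zero, map_one, mul_one]
      rfl
    | succ i ih =>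
      rw [pow_succ, AlgEquiv.mul_apply, s'b', map_mul, ih, s'pF, Finset.prod_range_succ, map_mul,
        mul_assoc]
  -- `g'^d` is a power of `γ`
  obtain ⟨i₀, hi₀⟩ : ∃ i : ℕ, g' ^ d = γ ^ i := htriv _ fun y ↦ by
    rw [g'pF, hgd]
    rfl
  have hg'dp : g' ^ (d * p) = 1 := by
    rw [pow_mul, hi₀, ← pow_mul, mul_comm, pow_mul, hγp, one_pow]
  -- `g₁`
  obtain ⟨m, hm1, hm2⟩ := Nat.chineseRemainder hdp 1 0
  have hpm : p ∣ m := (Nat.modEq_zero_iff_dvd).1 hm2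
  have hgm : g ^ m = g := by
    have e1 : m ≡ 1 [MOD orderOf g] := hm1.of_dvd (orderOf_dvd_of_pow_eq_one hgd)
    have e2 := (pow_eq_pow_iff_modEq (x := g)).2 e1
    rwa [pow_one] at e2
  obtain ⟨g₁, hg₁⟩ : ∃ g₁ : ℋ₂ ≃ₐ[ℚ_[p]] ℋ₂, g₁ = g' ^ m := ⟨_, rfl⟩
  have hg₁d : g₁ ^ d = 1 := by
    obtain ⟨r, rfl⟩ := hpm
    have e1 : p * r * d = d * p * r := by ring
    rw [hg₁, ← pow_mul, e1, pow_mul, hg'dp, one_pow]
  have g₁F : ∀ y : 𝓕, g₁ (ι y) = ι (g y) := by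
    intro y
    rw [hg₁, g'pF, hgm]
  have hcm : Commute γ g₁ := by
    rw [hg₁]
    refine Commute.pow_right ?_ m
    ext y
    exact congrArg Subtype.val (hcomm y).symm
  have hcs : Commute γ s' := by
    ext y
    have e1 := hcomm₂ y
    rw [hγγ₂] at e1
    exact congrArg Subtype.val e1.symm
  -- `g₁` and `s'` commute
  have hgs : Commute g₁ s' := by
    have e0 : ∀ y : 𝓕, (g₁ * s') (ι y) = (s' * g₁) (ι y) := by
      intro y
      rw [AlgEquiv.mul_apply, AlgEquiv.mul_apply, s'F', g₁F, g₁F, s'F']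
      have := AlgEquiv.congr_fun hgσ y
      rw [AlgEquiv.mul_apply, AlgEquiv.mul_apply] at this
      rw [this]
    obtain ⟨i, hi⟩ := htriv ((s' * g₁)⁻¹ * (g₁ * s')) fun y ↦ by
      rw [AlgEquiv.mul_apply, e0, ← AlgEquiv.mul_apply, inv_mul_cancel]
      rfl
    have e1 : g₁ * s' = s' * g₁ * γ ^ i := by
      rw [← hi, mul_inv_cancel_left]
    -- `g₁^l s' = s' g₁^l γ^(l i)`
    have e2 : ∀ l : ℕ, g₁ ^ l * s' = s' * g₁ ^ l * γ ^ (l * i) := by
      intro l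
      induction l with
      | zero => rw [pow_zero, zero_mul, pow_zero, one_mul, mul_one, mul_one]
      | succ l ih =>
        have e3 : Commute (γ ^ i) (g₁ ^ l) := hcm.pow_pow i l
        calc g₁ ^ (l + 1) * s' = g₁ ^ l * (g₁ * s') := by rw [pow_succ, mul_assoc]
          _ = g₁ ^ l * s' * (g₁ * γ ^ i) := by rw [e1]; simp only [mul_assoc]
          _ = s' * g₁ ^ l * γ ^ (l * i) * (g₁ * γ ^ i) := by rw [ih]
          _ = s' * g₁ ^ l * (γ ^ (l * i) * g₁) * γ ^ i := by simp only [mul_assoc]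
          _ = s' * g₁ ^ l * (g₁ * γ ^ (l * i)) * γ ^ i := by rw [(hcm.pow_left (l * i)).eq]
          _ = s' * (g₁ ^ l * g₁) * (γ ^ (l * i) * γ ^ i) := by simp only [mul_assoc]
          _ = s' * g₁ ^ (l + 1) * γ ^ ((l + 1) * i) := by
            rw [← pow_succ, ← pow_add]
            congr 2
            ring
    have e4 := e2 d
    rw [hg₁d, one_mul, mul_one] at e4
    have e5 : γ ^ (d * i) = 1 := by
      have e6 : s' * γ ^ (d * i) = s' * 1 := by rw [mul_one]; exact e4.symm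
      exact mul_left_cancel e6
    have e7 : p ∣ d * i := by
      rw [← hγo]
      exact orderOf_dvd_of_pow_eq_one e5
    have e8 : p ∣ i := (Nat.Coprime.dvd_of_dvd_mul_left hdp.symm) e7
    have e9 : γ ^ i = 1 := by
      obtain ⟨r, rfl⟩ := e8
      rw [pow_mul, hγp, one_pow]
    rw [e9, mul_one] at e1
    exact e1
  -- the automorphism `θ`
  obtain ⟨θ, j, hpj, hθj, hθg, hθF⟩ : ∃ (θ : ℋ₂ ≃ₐ[ℚ_[p]] ℋ₂) (j : ℕ), ¬ p ∣ j ∧
      θ ^ (p ^ t) = γ ^ j ∧ Commute θ g₁ ∧ ∀ y : 𝓕, θ (ι y) = ι y → σ y = y := by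
    rcases Nat.eq_zero_or_pos t with ht | ht
    · refine ⟨γ, 1, ?_, ?_, hcm, fun y _ ↦ ?_⟩
      · intro e1
        exact hp.one_lt.ne' (Nat.dvd_one.1 e1)
      · rw [ht, pow_zero]
      · rw [ht, pow_zero, orderOf_eq_one_iff] at hσo
        rw [hσo]
        rfl
    · obtain ⟨j, hj⟩ := htriv (s' ^ (p ^ t)) fun y ↦ by
        rw [s'pF, ← hσo, pow_orderOf_eq_one]
        rfl
      refine ⟨s', j, ?_, hj, hgs.symm, fun y hy ↦ ?_⟩
      · rintro ⟨r, rfl⟩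
        apply hσe ht
        apply hιinj
        have e1 := s'pb (p ^ t)
        rw [hj, pow_mul, hγp, one_pow] at e1
        have e2 : b₂ * ι (∏ l ∈ Finset.range (p ^ t), (σ ^ l) e) = b₂ * 1 := by
          rw [← e1, mul_one]
          rfl
        rw [map_one]
        exact mul_left_cancel₀ hb0 e2
      · rw [s'F'] at hy
        exact hιinj hy
  have hθp : θ ^ (p ^ (t + 1)) = 1 := by
    rw [pow_succ, pow_mul, hθj, ← pow_mul, mul_comm, pow_mul, hγp, one_pow]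
  -- `δ = θ^(p^t)`
  obtain ⟨δ, hδ⟩ : ∃ δ : ℋ₂ ≃ₐ[ℚ_[p]] ℋ₂, δ = γ ^ j := ⟨_, rfl⟩
  have hδθ : δ = θ ^ (p ^ t) := by rw [hδ, hθj]
  have hδp : δ ^ p = 1 := by rw [hδ, ← pow_mul, mul_comm, pow_mul, hγp, one_pow]
  have hcop : j.Coprime p := ((Nat.Prime.coprime_iff_not_dvd hp).2 hpj).symm
  have hδ1 : δ ≠ 1 := by
    intro e1
    rw [hδ] at e1
    have e2 := orderOf_dvd_of_pow_eq_one e1
    rw [hγo] at e2
    exact hpj e2
  have hδo : orderOf δ = p := orderOf_eq_prime hδp hδ1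
  have hε₂ : IsPrimitiveRoot ((ι ε) ^ j) p := hει.pow_of_coprime j hcop
  have δpF : ∀ (i : ℕ) (y : 𝓕), (δ ^ i) (ι y) = ι y := by
    intro i y
    rw [hδ, ← pow_mul, γpF]
  have δpb : ∀ i : ℕ, (δ ^ i) b₂ = ((ι ε) ^ j) ^ i * b₂ := by
    intro i
    rw [hδ, ← pow_mul, γpb, pow_mul]
  have hcδ : Commute δ g₁ := by
    rw [hδ]
    exact hcm.pow_left j
  have hcδij : ∀ (i l : ℕ) (y : ℋ₂), (δ ^ i) ((g₁ ^ l) y) = (g₁ ^ l) ((δ ^ i) y) := by
    intro i l y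
    exact AlgEquiv.congr_fun (hcδ.pow_pow i l) y
  -- the fixed field of `g₁`
  obtain ⟨E, hE⟩ : ∃ E : IntermediateField ℚ_[p] ℋ₂,
    E = IntermediateField.fixedField (Subgroup.zpowers g₁) := ⟨_, rfl⟩
  have hmem : ∀ y : ℋ₂, y ∈ E ↔ g₁ y = y := by
    intro y
    rw [hE]
    exact mem_fix g₁ y
  obtain ⟨θE, cθ⟩ : ∃ θE : E ≃ₐ[ℚ_[p]] E, ∀ (i : ℕ) (y : E),
      (((θE ^ i) y : E) : ℋ₂) = (θ ^ i) (y : ℋ₂) := by
    subst hE
    exact ⟨res θ (fix_stab g₁ θ hθg) (fix_stab' g₁ θ hθg), fun i y ↦ res_pow θ _ _ i y⟩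
  have hθEp : θE ^ (p ^ (t + 1)) = 1 := by
    ext y
    rw [cθ, hθp]
    rfl
  have hθE1 : ¬ θE ^ (p ^ t) = 1 := by
    intro e1
    have e2 : δ ∈ E.fixingSubgroup := by
      rw [IntermediateField.mem_fixingSubgroup_iff]
      intro y hy
      have e3 := cθ (p ^ t) ⟨y, hy⟩
      rw [e1, ← hδθ] at e3
      exact e3.symm
    rw [hE, IntermediateField.fixingSubgroup_fixedField] at e2
    have e4 : orderOf δ ∣ d := (orderOf_dvd_of_mem_zpowers e2).trans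
      (orderOf_dvd_of_pow_eq_one hg₁d)
    rw [hδo] at e4
    have e5 : p ∣ 1 := by
      rw [← Nat.Coprime.gcd_eq_one hdp]
      exact Nat.dvd_gcd e4 dvd_rfl
    exact hp.one_lt.ne' (Nat.dvd_one.1 e5)
  have hθEo : orderOf θE = p ^ (t + 1) := orderOf_eq_prime_pow hθE1 hθEp
  -- the fixed field of `θE^p`
  obtain ⟨B, hB⟩ : ∃ B : IntermediateField ℚ_[p] E,
    B = IntermediateField.fixedField (Subgroup.zpowers (θE ^ p)) := ⟨_, rfl⟩
  have hmemB : ∀ y : E, y ∈ B ↔ (θE ^ p) y = y := by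
    intro y
    rw [hB]
    exact mem_fix (θE ^ p) y
  obtain ⟨θB, cθB⟩ : ∃ θB : B ≃ₐ[ℚ_[p]] B, ∀ (i : ℕ) (y : B),
      (((θB ^ i) y : B) : E) = (θE ^ i) (y : E) := by
    subst hB
    have hc : Commute θE (θE ^ p) := Commute.self_pow θE p
    exact ⟨res θE (fix_stab _ θE hc) (fix_stab' _ θE hc), fun i y ↦ res_pow θE _ _ i y⟩
  have hθBp : θB ^ p = 1 := by
    ext1 y
    apply Subtype.ext
    rw [cθB]
    exact (hmemB _).1 y.2
  have hθB1 : θB ≠ 1 := by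
    intro e1
    have e2 : θE ∈ B.fixingSubgroup := by
      rw [IntermediateField.mem_fixingSubgroup_iff]
      intro y hy
      have e3 := cθB 1 ⟨y, hy⟩
      rw [pow_one, pow_one, e1] at e3
      exact e3.symm
    rw [hB, IntermediateField.fixingSubgroup_fixedField] at e2
    have e4 : orderOf θE ∣ p ^ t := (orderOf_dvd_of_mem_zpowers e2).trans
      (orderOf_dvd_of_pow_eq_one (by rw [← pow_mul, ← pow_succ', hθEp]))
    rw [hθEo] at e4
    have e5 := Nat.le_of_dvd (pow_pos hp.pos t) e4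
    have e6 : p ^ t < p ^ (t + 1) := Nat.pow_lt_pow_right hp.one_lt (Nat.lt_succ_self t)
    omega
  have hθBo : orderOf θB = p := orderOf_eq_prime hθBp hθB1
  have hfinE : FiniteDimensional ℚ_[p] E := inferInstance
  have hfinB : FiniteDimensional ℚ_[p] B := inferInstance
  have hfinL : FiniteDimensional ℚ_[p] (IntermediateField.lift (IntermediateField.lift B)) :=
    LinearEquiv.finiteDimensional ((IntermediateField.liftAlgEquiv B).trans
      (IntermediateField.liftAlgEquiv (IntermediateField.lift B))).toLinearEquiv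
  obtain ⟨u, hu0, hu1, hu2⟩ := idx_transfer h2 p
    (IntermediateField.lift (IntermediateField.lift B)) B
    ((IntermediateField.liftAlgEquiv B).trans
      (IntermediateField.liftAlgEquiv (IntermediateField.lift B))) θB hθBo
  have huE0 : (u : E) ≠ 0 := fun e1 ↦ hu0 (Subtype.ext e1)
  obtain ⟨v, hv⟩ : ∃ v : ℋ₂, v = ((u : E) : ℋ₂) := ⟨_, rfl⟩
  have hv0 : v ≠ 0 := by
    rw [hv]
    exact fun e1 ↦ huE0 (Subtype.ext e1)
  have hθEu : θE (u : E) = u := by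
    have e1 := cθB 1 u
    rw [pow_one, pow_one, hu1] at e1
    exact e1.symm
  have hθv : θ v = v := by
    have e1 := cθ 1 (u : E)
    rw [pow_one, pow_one, hθEu, ← hv] at e1
    exact e1.symm
  have hδv : δ v = v := by
    rw [hδθ]
    exact fix_pow (K := ℚ_[p]) (Ω := ℋ₂) hθv _
  have hg₁v : g₁ v = v := by
    rw [hv]
    exact (hmem _).1 (u : E).2
  -- `v` is in `𝓕`
  have hpH : (p : ℋ₂) ≠ 0 := by
    have : CharZero ℋ₂ := charZero_of_injective_algebraMap (algebraMap ℚ_[p] ℋ₂).injective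
    exact Nat.cast_ne_zero.2 hp.ne_zero
  obtain ⟨w, hw⟩ : ∃ w : 𝓕, ι w = v := by
    obtain ⟨z, hz⟩ := hspan v
    refine ⟨z 0, ?_⟩
    have e1 : ∑ i ∈ Finset.range p, (δ ^ i) v = p * v := by
      rw [Finset.sum_congr rfl fun i _ ↦ fix_pow (K := ℚ_[p]) (Ω := ℋ₂) hδv i, Finset.sum_const,
        Finset.card_range, nsmul_eq_mul]
    have e2 : ∑ i ∈ Finset.range p, (δ ^ i) v = p * ι (z 0) := by
      have e3 : ∀ i ∈ Finset.range p, (δ ^ i) v =
          ∑ l ∈ Finset.range p, ι (z l) * b₂ ^ l * (((ι ε) ^ j) ^ l) ^ i := by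
        intro i _
        conv_lhs => rw [hz]
        rw [map_sum]
        refine Finset.sum_congr rfl fun l _ ↦ ?_
        rw [map_mul, δpF, map_pow, δpb, mul_pow, ← pow_mul (((ι ε) ^ j)) i l,
          ← pow_mul (((ι ε) ^ j)) l i, mul_comm l i]
        ring
      rw [Finset.sum_congr rfl e3, Finset.sum_comm]
      rw [Finset.sum_eq_single 0]
      · simp only [pow_zero, one_pow, mul_one]
        rw [Finset.sum_const, Finset.card_range, nsmul_eq_mul]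
      · intro l hl hl0
        rw [← Finset.mul_sum]
        have e4 : ((ι ε) ^ j) ^ l ≠ 1 := by
          intro e5
          have e6 := (hε₂.pow_eq_one_iff_dvd l).1 e5
          exact absurd (Nat.le_of_dvd (Nat.pos_of_ne_zero hl0) e6)
            (not_le.2 (Finset.mem_range.1 hl))
        have e5 : (∑ i ∈ Finset.range p, (((ι ε) ^ j) ^ l) ^ i) * (((ι ε) ^ j) ^ l - 1) = 0 := by
          rw [geom_sum_mul, ← pow_mul, mul_comm l p, pow_mul, hε₂.pow_eq_one, one_pow, sub_self]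
        rw [(mul_eq_zero.1 e5).resolve_right (sub_ne_zero.2 e4), mul_zero]
      · intro e4
        exact absurd (Finset.mem_range.2 hp.pos) e4
    rw [e1] at e2
    exact (mul_left_cancel₀ hpH e2).symm
  have hw0 : w ≠ 0 := by
    rintro rfl
    exact hv0 (by rw [← hw, map_zero])
  refine ⟨w, hw0, hιinj (by rw [← g₁F, hw, hg₁v]), hθF w (by rw [hw, hθv]), ?_⟩
  intro z hz
  -- `v` is a norm from `ℋ`
  obtain ⟨y, hy⟩ : ∃ y : ℋ₂, ∏ i ∈ Finset.range p, (δ ^ i) y = v := by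
    refine ⟨∑ l ∈ Finset.range p, ι (z l) * b₂ ^ l, ?_⟩
    have e1 := h4.1 p 𝓕 ℋ₂ (ι : 𝓕 →+* ℋ₂) α z
    have e2 := h3 p ℋ₂ ((ι ε) ^ j) b₂ hε₂ hb0 fun l ↦ ι (z l)
    rw [hbp] at e2
    have e3 : ι (nf p α z) = nf p (ι α) fun l ↦ ι (z l) := e1
    rw [hz, hw, e2] at e3
    rw [e3]
    refine Finset.prod_congr rfl fun i _ ↦ ?_
    rw [map_sum]
    refine Finset.sum_congr rfl fun l _ ↦ ?_
    rw [map_mul, δpF, map_pow, δpb]
  set y' : ℋ₂ := ∏ l ∈ Finset.range d, (g₁ ^ l) y with hy'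
  have hy'E : g₁ y' = y' := by
    rw [hy', map_prod]
    have e1 := prod_shift (fun l ↦ (g₁ ^ l) y) d (by
      show (g₁ ^ d) y = (g₁ ^ 0) y
      rw [hg₁d, pow_zero])
    rw [← e1]
    refine Finset.prod_congr rfl fun l _ ↦ ?_
    rw [pow_succ', AlgEquiv.mul_apply]
  have hNy' : ∏ i ∈ Finset.range p, (δ ^ i) y' = v ^ d := by
    have e1 : ∀ i ∈ Finset.range p, (δ ^ i) y' = ∏ l ∈ Finset.range d, (g₁ ^ l) ((δ ^ i) y) := by
      intro i _
      rw [hy', map_prod]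
      exact Finset.prod_congr rfl fun l _ ↦ hcδij i l y
    rw [Finset.prod_congr rfl e1, Finset.prod_comm]
    have e2 : ∀ l ∈ Finset.range d, ∏ i ∈ Finset.range p, (g₁ ^ l) ((δ ^ i) y) = v := by
      intro l _
      rw [← map_prod, hy]
      exact fix_pow (K := ℚ_[p]) (Ω := ℋ₂) hg₁v l
    rw [Finset.prod_congr rfl e2, Finset.prod_const, Finset.card_range]
  have hNv : ∏ i ∈ Finset.range p, (δ ^ i) v = v ^ p := by
    rw [Finset.prod_congr rfl fun i _ ↦ fix_pow (K := ℚ_[p]) (Ω := ℋ₂) hδv i, Finset.prod_const,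
      Finset.card_range]
  obtain ⟨r, s, hrs⟩ : ∃ r s : ℤ, (d : ℤ) * r + p * s = 1 := by
    refine ⟨Nat.gcdA d p, Nat.gcdB d p, ?_⟩
    have e1 := Nat.gcd_eq_gcd_ab d p
    rw [Nat.Coprime.gcd_eq_one hdp] at e1
    exact e1.symm
  have hYE : y' ^ r * v ^ s ∈ E := by
    rw [hmem, map_mul, map_zpow₀, map_zpow₀, hy'E, hg₁v]
  have hNn : ∏ i ∈ Finset.range p, (δ ^ i) (y' ^ r * v ^ s) = v := by
    have e3 : ∀ i ∈ Finset.range p, (δ ^ i) (y' ^ r * v ^ s) =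
        ((δ ^ i) y') ^ r * ((δ ^ i) v) ^ s := by
      intro i _
      rw [map_mul, map_zpow₀, map_zpow₀]
    rw [Finset.prod_congr rfl e3, Finset.prod_mul_distrib, Finset.prod_zpow, Finset.prod_zpow, hNy',
      hNv, ← zpow_natCast, ← zpow_natCast, ← zpow_mul, ← zpow_mul, ← zpow_add₀ hv0, hrs, zpow_one]
  -- descent by `Y_CYC`
  obtain ⟨x, hx1, hx2⟩ := h0 ℚ_[p] E θE p t hp hθEo (u : E) ⟨y' ^ r * v ^ s, hYE⟩ huE0 hθEu (by
    apply Subtype.ext
    have e2 := map_prod E.val (fun i ↦ (θE ^ (p ^ t * i)) ⟨y' ^ r * v ^ s, hYE⟩) (Finset.range p)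
    refine e2.trans ?_
    rw [← hv]
    refine Eq.trans (Finset.prod_congr rfl fun i _ ↦ ?_) hNn
    refine (cθ _ _).trans ?_
    rw [hδθ, ← pow_mul])
  apply hu2 ⟨x, (hmemB x).2 hx1⟩
  apply Subtype.ext
  have e2 := map_prod B.val (fun i ↦ (θB ^ i) ⟨x, (hmemB x).2 hx1⟩) (Finset.range p)
  refine e2.trans ?_
  rw [← hx2]
  exact Finset.prod_congr rfl fun i _ ↦ cθB i _

end Pool.Agent.Helper14.WY
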